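import Pool.Agent.LRY.Stmts

/-!
# Squad LRY, row INQ: all units but one are independent
-/

set_option autoImplicit false

open Polynomial NumberField
open Pool.Agent.LRG Pool.Agent.LRN
open Pool.Agent.LRG.E

namespace Pool.Agent.LRY.H52

theorem fac_rep {r₁ r₂ : ℕ} (k : Fa r₁ r₂) : fac (rep k) = k := by
  cases k <;> rfl

/-- the logarithm of the absolute value of a unit under an embedding -/
noncomputable def lgh {K : Type} [Field K] [NumberField K] (σ : K →+* ℂ) :
    (𝓞 K)ˣ →* Multiplicative ℝ where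
  toFun v := Multiplicative.ofAdd (Real.log ‖σ ((v : 𝓞 K) : K)‖)
  map_one' := by simp
  map_mul' v w := by
    have h : ∀ v : (𝓞 K)ˣ, ‖σ ((v : 𝓞 K) : K)‖ ≠ 0 := fun v => by
      rw [norm_ne_zero_iff]
      exact (map_ne_zero σ).2 (by simp)
    have h2 : σ (((v * w : (𝓞 K)ˣ) : 𝓞 K) : K) = σ ((v : 𝓞 K) : K) * σ ((w : 𝓞 K) : K) := by
      rw [Units.val_mul, ← map_mul]
      congr 1
    rw [← ofAdd_add, ← Real.log_mul (h v) (h w), ← norm_mul, h2]

theorem lgh_apply {K : Type} [Field K] [NumberField K] (σ : K →+* ℂ) (v : (𝓞 K)ˣ) :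
    Multiplicative.toAdd (lgh σ v) = Real.log ‖σ ((v : 𝓞 K) : K)‖ := rfl

theorem inq : InqStmt := by
  intro hS r₁ r₂ N a c x K _ _ e u hR hN hu hd k₀ m hm0 hm
  obtain ⟨-, s2, -⟩ := hS r₁ r₂ N a c x hR hN
  have h1 : ∀ o, ∑ k, Real.log (dsq a c (x o) k) = 0 := by
    intro o
    have h := congrArg (fun v => Multiplicative.toAdd (lgh (e o) v)) hu
    simp only [map_prod, map_one, toAdd_prod, toAdd_one, lgh_apply, hd] at h
    exact h
  have h2 : ∀ o, ∑ k, (m k : ℝ) * Real.log (dsq a c (x o) k) = 0 := by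
    intro o
    have h := congrArg (fun v => Multiplicative.toAdd (lgh (e o) v)) hm
    simp only [map_prod, map_one, map_zpow, toAdd_prod, toAdd_one, toAdd_zpow, lgh_apply, hd,
      zsmul_eq_mul] at h
    exact h
  have : Nonempty (Fa r₁ r₂) := ⟨k₀⟩
  obtain ⟨k₁, hk₁⟩ := Finite.exists_max m
  have h3 : ∑ k, ((m k₁ : ℝ) - (m k : ℝ)) * Real.log (dsq a c (x (rep k₁)) k) = 0 := by
    have h := h2 (rep k₁)
    have h' := h1 (rep k₁)
    simp only [sub_mul, Finset.sum_sub_distrib, ← Finset.mul_sum]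
    rw [h, h', mul_zero, sub_zero]
  have hpos : ∀ k, k ≠ k₁ → 0 < Real.log (dsq a c (x (rep k₁)) k) := by
    intro k hk
    apply Real.log_pos
    apply s2
    rw [fac_rep]
    exact fun h => hk h.symm
  have hnn : ∀ k ∈ Finset.univ,
      0 ≤ ((m k₁ : ℝ) - (m k : ℝ)) * Real.log (dsq a c (x (rep k₁)) k) := by
    intro k _
    by_cases hk : k = k₁
    · rw [hk, sub_self, zero_mul]
    · have h4 : (m k : ℝ) ≤ (m k₁ : ℝ) := by exact_mod_cast hk₁ k
      exact mul_nonneg (by linarith) (hpos k hk).le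
  have h5 := (Finset.sum_eq_zero_iff_of_nonneg hnn).1 h3
  have h6 : ∀ k, m k = m k₁ := by
    intro k
    by_cases hk : k = k₁
    · rw [hk]
    · rcases mul_eq_zero.1 (h5 k (Finset.mem_univ k)) with h | h
      · have h7 : (m k : ℝ) = (m k₁ : ℝ) := by linarith
        exact_mod_cast h7
      · exact absurd h (hpos k hk).ne'
  funext k
  rw [Pi.zero_apply, h6 k, ← h6 k₀, hm0]

end Pool.Agent.LRY.H52
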